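import Mathlib

/-!
# Diagonal quadrics and the characters of an elementary abelian group
-/

set_option autoImplicit false

namespace Pool.Agent.Zk57.EQ.Camp

open Finset

/-- the elementary abelian group of order `2 ^ r` -/
abbrev V (r : ℕ) : Type := Fin r → ZMod 2

/-- the nontrivial homomorphism from the group of order 2 -/
def sgn : Multiplicative (ZMod 2) →* ℂˣ where
  toFun x := if x.toAdd = 0 then 1 else -1
  map_one' := by
    rw [toAdd_one, if_pos rfl]
  map_mul' x y := by
    obtain ⟨x, rfl⟩ := Multiplicative.ofAdd.surjective x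
    obtain ⟨y, rfl⟩ := Multiplicative.ofAdd.surjective y
    rw [← ofAdd_add, toAdd_ofAdd, toAdd_ofAdd, toAdd_ofAdd]
    have h : ∀ z : ZMod 2, z = 0 ∨ z = 1 := by decide
    have h1 : (1 : ZMod 2) ≠ 0 := by decide
    have h2 : (1 + 1 : ZMod 2) = 0 := by decide
    rcases h x with rfl | rfl <;> rcases h y with rfl | rfl <;> simp [h2]

theorem sgn_sq (x : Multiplicative (ZMod 2)) : sgn x ^ 2 = 1 := by
  change (if x.toAdd = 0 then (1 : ℂˣ) else -1) ^ 2 = 1
  split_ifs <;> simp

/-- the pairing with `w` -/
def dot {r : ℕ} (w : V r) : V r →+ ZMod 2 where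
  toFun g := ∑ j, w j * g j
  map_zero' := by simp
  map_add' x y := by simp [mul_add, Finset.sum_add_distrib]

/-- the character given by `w` -/
def ch {r : ℕ} (w : V r) : Multiplicative (V r) →* ℂˣ := sgn.comp (AddMonoidHom.toMultiplicative (dot w))

theorem ch_sq {r : ℕ} (w : V r) (g : Multiplicative (V r)) : ch w g ^ 2 = 1 := sgn_sq _

theorem ch_apply {r : ℕ} (w : V r) (g : Multiplicative (V r)) :
    ch w g = if dot w g.toAdd = 0 then 1 else -1 := rfl

theorem dot_add {r : ℕ} (w w' g : V r) : dot (w + w') g = dot w g + dot w' g := by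
  change ∑ j, (w + w') j * g j = ∑ j, w j * g j + ∑ j, w' j * g j
  rw [← Finset.sum_add_distrib]
  exact Finset.sum_congr rfl fun j _ => by rw [Pi.add_apply, add_mul]

/-- both values of a nontrivial pairing occur equally often -/
theorem card_dot {r : ℕ} {g : V r} (hg : g ≠ 0) (ε : ZMod 2) :
    2 * (univ.filter fun w : V r => dot w g = ε).card = 2 ^ r := by
  classical
  obtain ⟨j, hj⟩ : ∃ j, g j ≠ 0 := by
    by_contra hc
    push Not at hc
    exact hg (funext hc)
  have hj1 : g j = 1 := by
    have h : ∀ z : ZMod 2, z ≠ 0 → z = 1 := by decide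
    exact h _ hj
  set w₀ : V r := Pi.single j 1 with hw₀
  have hd : dot w₀ g = 1 := by
    change ∑ k, w₀ k * g k = 1
    rw [Finset.sum_eq_single j]
    · rw [hw₀, Pi.single_eq_same, one_mul, hj1]
    · intro k _ hk
      rw [hw₀, Pi.single_eq_of_ne hk, zero_mul]
    · intro h; exact absurd (mem_univ j) h
  have h1 : (univ.filter fun w : V r => dot w g = ε).card
      = (univ.filter fun w : V r => ¬ dot w g = ε).card := by
    have h2 : (univ.filter fun w : V r => ¬ dot w g = ε)
        = (univ.filter fun w : V r => dot w g = ε).map (Equiv.addRight w₀).toEmbedding := by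
      ext w
      simp only [mem_filter, mem_univ, true_and, mem_map, Equiv.coe_toEmbedding]
      have hz : ∀ a e : ZMod 2, ¬ a = e ↔ a + 1 = e := by decide
      have hz' : ∀ a e : ZMod 2, a = e ↔ ¬ (a + 1 = e) := by decide
      constructor
      · intro h
        refine ⟨w + w₀, ?_, ?_⟩
        · rw [dot_add, hd]
          exact (hz _ _).1 h
        · change w + w₀ + w₀ = w
          funext k
          have hzz : ∀ a b : ZMod 2, a + b + b = a := by decide
          exact hzz _ _
      · rintro ⟨w', h, rfl⟩
        change ¬ dot (w' + w₀) g = ε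
        rw [dot_add, hd]
        exact (hz' _ _).1 h
    rw [h2, card_map]
  have h2 := Finset.card_filter_add_card_filter_not (s := (univ : Finset (V r)))
    (fun w : V r => dot w g = ε)
  rw [← h1, card_univ, Fintype.card_fun, ZMod.card, Fintype.card_fin] at h2
  omega

/-- Vectors with few nonzero entries and vanishing moments are zero. -/
theorem vander {ι : Type} [Fintype ι] [DecidableEq ι] {a z : ι → ℂ} (ha : Function.Injective a)
    {c : ℕ} (T : Finset ι) (hT : T.card ≤ c) (hz : ∀ i, i ∉ T → z i = 0)
    (hm : ∀ j < c, ∑ i, a i ^ j * z i = 0) : ∀ i, z i = 0 := by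
  have hpoly : ∀ p : Polynomial ℂ, p.natDegree < c → ∑ i, p.eval (a i) * z i = 0 := by
    intro p hp
    have h1 : ∀ i, p.eval (a i) * z i = ∑ j ∈ range c, p.coeff j * (a i ^ j * z i) := by
      intro i
      rw [Polynomial.eval_eq_sum_range' hp, Finset.sum_mul]
      exact Finset.sum_congr rfl fun j _ => by ring
    rw [Finset.sum_congr rfl fun i _ => h1 i, Finset.sum_comm]
    refine Finset.sum_eq_zero fun j hj => ?_
    rw [← Finset.mul_sum, hm j (Finset.mem_range.1 hj), mul_zero]
  intro l
  by_cases hl : l ∈ T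
  · set p : Polynomial ℂ := ∏ i ∈ T.erase l, (Polynomial.X - Polynomial.C (a i)) with hp
    have h1 := hpoly p (by
      rw [hp, Polynomial.natDegree_prod_of_monic _ _ fun i _ => Polynomial.monic_X_sub_C _]
      simp only [Polynomial.natDegree_X_sub_C, Finset.sum_const, smul_eq_mul, mul_one]
      have h2 := Finset.card_erase_lt_of_mem hl
      omega)
    have hev : ∀ x, p.eval x = ∏ i ∈ T.erase l, (x - a i) := by
      intro x
      rw [hp, Polynomial.eval_prod]
      exact Finset.prod_congr rfl fun i _ => by simp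
    rw [Finset.sum_eq_single l] at h1
    · refine (mul_eq_zero.1 h1).resolve_left ?_
      rw [hev]
      refine Finset.prod_ne_zero_iff.2 fun i hi => ?_
      rw [sub_ne_zero]
      exact fun h => Finset.ne_of_mem_erase hi (ha h).symm
    · intro i _ hi
      by_cases hiT : i ∈ T
      · rw [hev, Finset.prod_eq_zero (Finset.mem_erase.2 ⟨hi, hiT⟩) (sub_self _), zero_mul]
      · rw [hz i hiT, mul_zero]
    · intro h; exact absurd (mem_univ l) h
  · exact hz l hl

end Pool.Agent.Zk57.EQ.Camp
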