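import Mathlib

/-!
# Elements of small exponent in an abelian group: reduction of exponents and averaging
-/

set_option autoImplicit false
set_option linter.unusedSectionVars false
set_option linter.unusedVariables false

namespace Pool.Agent.Zk57.EQ

open Finset

section red

variable {Q : Type*} [CommGroup Q] {ι : Type*} [Fintype ι] [DecidableEq ι]

omit [Fintype ι] in
theorem zsum (x : Q) (s : Finset ι) (f : ι → ℤ) : ∏ i ∈ s, x ^ f i = x ^ ∑ i ∈ s, f i := by
  induction s using Finset.induction_on with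
  | empty => simp
  | insert i s hi ih => rw [Finset.prod_insert hi, Finset.sum_insert hi, ih, zpow_add]

/-- Reduction of the exponents modulo `δ`. -/
theorem red (q : ι → Q) {δ : ℕ} (hδ : 0 < δ) (T : Finset ι) (l : ι) (hl : l ∈ T)
    (hq : ∀ i ∈ T, q i ^ δ = q l ^ δ) (a : ι → ℤ) (ha : ∀ i, i ∉ T → a i = 0) (D : ℕ)
    (hD : ∑ i, a i = D) (hDT : (T.card - 1) * (δ - 1) ≤ D) :
    ∃ m : ι → ℕ, (∀ i, i ∉ T → m i = 0) ∧ ∑ i, m i = D ∧ ∏ i, q i ^ m i = ∏ i, q i ^ a i := by
  have hδ' : (0 : ℤ) < δ := by exact_mod_cast hδ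
  set s : ℤ := ∑ i ∈ univ.erase l, a i / δ with hs
  set b : ι → ℤ := fun i => if i = l then a l + δ * s else a i % δ with hb
  have hbl : b l = a l + δ * s := by simp [hb]
  have hbi : ∀ i, i ≠ l → b i = a i % δ := fun i hi => by simp [hb, hi]
  have hsplit : ∀ (f : ι → ℤ), ∑ i, f i = f l + ∑ i ∈ univ.erase l, f i := fun f =>
    (Finset.add_sum_erase _ f (Finset.mem_univ l)).symm
  have hsum : ∑ i, b i = D := by
    rw [← hD, hsplit b, hsplit a, hbl]
    have h1 : ∑ i ∈ univ.erase l, b i = ∑ i ∈ univ.erase l, a i % δ :=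
      Finset.sum_congr rfl fun i hi => hbi i (Finset.ne_of_mem_erase hi)
    have h2 : ∑ i ∈ univ.erase l, a i = ∑ i ∈ univ.erase l, a i % δ + δ * s := by
      rw [hs, Finset.mul_sum, ← Finset.sum_add_distrib]
      exact Finset.sum_congr rfl fun i _ => (Int.emod_add_mul_ediv _ _).symm
    rw [h1, h2]
    ring
  have hb0 : ∀ i, i ∉ T → b i = 0 := by
    intro i hi
    have hil : i ≠ l := fun h => hi (h ▸ hl)
    rw [hbi i hil, ha i hi]
    simp
  have hpos : ∀ i, 0 ≤ b i := by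
    intro i
    by_cases hi : i = l
    · subst hi
      have h1 : ∑ j ∈ univ.erase i, b j = ∑ j ∈ T.erase i, b j := by
        symm
        apply Finset.sum_subset (Finset.erase_subset_erase _ (Finset.subset_univ _))
        intro j hj hj'
        refine hb0 j fun h => hj' ?_
        exact Finset.mem_erase.2 ⟨Finset.ne_of_mem_erase hj, h⟩
      have h2 : ∑ j ∈ T.erase i, b j ≤ ∑ _j ∈ T.erase i, ((δ : ℤ) - 1) := by
        apply Finset.sum_le_sum
        intro j hj
        rw [hbi j (Finset.ne_of_mem_erase hj)]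
        have := Int.emod_lt_of_pos (a j) hδ'
        omega
      rw [Finset.sum_const, Finset.card_erase_of_mem hl, nsmul_eq_mul] at h2
      have h3 : (((T.card - 1 : ℕ) : ℤ)) * ((δ : ℤ) - 1) ≤ D := by
        have h4 : ((δ : ℤ) - 1) = ((δ - 1 : ℕ) : ℤ) := by omega
        rw [h4]
        exact_mod_cast hDT
      have h4 := hsplit b
      rw [h1] at h4
      omega
    · rw [hbi i hi]
      exact Int.emod_nonneg _ hδ'.ne'
  refine ⟨fun i => (b i).toNat, fun i hi => by simp only [hb0 i hi]; rfl, ?_, ?_⟩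
  · have h1 : ((∑ i, (b i).toNat : ℕ) : ℤ) = D := by
      rw [Nat.cast_sum, ← hsum]
      exact Finset.sum_congr rfl fun i _ => Int.toNat_of_nonneg (hpos i)
    exact_mod_cast h1
  · have h1 : ∏ i, q i ^ (b i).toNat = ∏ i, q i ^ b i := by
      refine Finset.prod_congr rfl fun i _ => ?_
      rw [← zpow_natCast, Int.toNat_of_nonneg (hpos i)]
    have hps : ∀ (f : ι → Q), ∏ i, f i = f l * ∏ i ∈ univ.erase l, f i := fun f =>
      (Finset.mul_prod_erase _ f (Finset.mem_univ l)).symm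
    have h2 : ∀ i ∈ univ.erase l, q i ^ a i = q i ^ b i * (q l ^ δ) ^ (a i / δ) := by
      intro i hi
      have hil := Finset.ne_of_mem_erase hi
      rw [hbi i hil]
      by_cases hiT : i ∈ T
      · rw [← hq i hiT, ← zpow_natCast, ← zpow_mul, ← zpow_add, Int.emod_add_mul_ediv]
      · rw [ha i hiT]
        simp
    rw [h1, hps, hps (fun i => q i ^ a i), Finset.prod_congr rfl h2, Finset.prod_mul_distrib, hbl,
      zsum, zpow_add, zpow_mul, zpow_natCast, ← hs]
    rw [mul_assoc, mul_comm ((q l ^ δ) ^ s)]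

theorem prod_shift (q : ι → Q) {δ : ℕ} (hq : ∀ i, q i ^ δ = 1) (N : ℕ) (l : ι) (m : ι → ℕ) :
    ∏ i, q i ^ ((m i : ℤ) - if i = l then ((δ * N : ℕ) : ℤ) else 0) = ∏ i, q i ^ m i := by
  refine Finset.prod_congr rfl fun i _ => ?_
  rw [zpow_sub, zpow_natCast]
  by_cases h : i = l
  · rw [if_pos h, zpow_natCast, pow_mul, hq, one_pow, inv_one, mul_one]
  · rw [if_neg h, zpow_zero, inv_one, mul_one]

theorem prod_sub (q : ι → Q) (k k₀ : ι → ℕ) :
    ∏ j, q j ^ ((k j : ℤ) - k₀ j) = (∏ j, q j ^ k j) * (∏ j, q j ^ k₀ j)⁻¹ := by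
  have h2 : ∀ j, q j ^ ((k j : ℤ) - k₀ j) = q j ^ k j * (q j ^ k₀ j)⁻¹ := by
    intro j
    rw [zpow_sub, zpow_natCast, zpow_natCast]
  rw [Finset.prod_congr rfl fun j _ => h2 j, Finset.prod_mul_distrib, Finset.prod_inv_distrib]

end red

/-! ### Averaging -/

section avg

variable {Q : Type*} [CommGroup Q] {ι : Type*} [Fintype ι] [DecidableEq ι]

/-- the product for exponents modulo `δ` -/
def P (δ : ℕ) (q : ι → Q) (ρ : ι → ZMod δ) : Q := ∏ j, q j ^ (ρ j).val

theorem P_cast {δ : ℕ} [NeZero δ] {q : ι → Q} (hq : ∀ i, q i ^ δ = 1) (m : ι → ℕ) :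
    P δ q (fun j => (m j : ZMod δ)) = ∏ j, q j ^ m j := by
  unfold P
  refine Finset.prod_congr rfl fun j _ => ?_
  rw [ZMod.val_natCast]
  exact (pow_eq_pow_mod (m j) (hq j)).symm

theorem P_add {δ : ℕ} [NeZero δ] {q : ι → Q} (hq : ∀ i, q i ^ δ = 1) (ρ κ : ι → ZMod δ) :
    P δ q (ρ + κ) = P δ q ρ * P δ q κ := by
  unfold P
  rw [← Finset.prod_mul_distrib]
  refine Finset.prod_congr rfl fun j _ => ?_
  rw [Pi.add_apply, ZMod.val_add, ← pow_add]
  exact (pow_eq_pow_mod _ (hq j)).symm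

theorem P_zero {δ : ℕ} [NeZero δ] {q : ι → Q} : P δ q 0 = 1 := by
  unfold P
  simp

theorem P_nsmul {δ : ℕ} [NeZero δ] {q : ι → Q} (hq : ∀ i, q i ^ δ = 1) (κ : ι → ZMod δ) (n : ℕ) :
    P δ q (n • κ) = P δ q κ ^ n := by
  induction n with
  | zero => rw [zero_nsmul, P_zero, pow_zero]
  | succ n ih => rw [succ_nsmul, P_add hq, ih, pow_succ]

theorem sum_val (δ : ℕ) [NeZero δ] (x : ZMod δ) :
    2 * ∑ k : ZMod δ, (x + k).val = δ * (δ - 1) := by
  have h1 : ∑ k : ZMod δ, (x + k).val = ∑ k : ZMod δ, k.val :=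
    Equiv.sum_comp (Equiv.addLeft x) fun k => k.val
  rw [h1]
  obtain ⟨d, rfl⟩ : ∃ d, δ = d + 1 := Nat.exists_eq_succ_of_ne_zero (NeZero.ne δ)
  have h2 : ∑ k : ZMod (d + 1), k.val = ∑ k ∈ Finset.range (d + 1), k :=
    Fin.sum_univ_eq_sum_range (fun n => n) (d + 1)
  rw [h2, mul_comm, Finset.sum_range_id_mul_two]

/-- A monomial of a given type with a large exponent. -/
theorem avg (q : ι → Q) (δ : ℕ) [NeZero δ] (hq : ∀ i, q i ^ δ = 1) (S : Finset ι)
    (hS : S.Nonempty) (B : ℕ)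
    (occ : ∀ i ∈ S, ∀ t, B ≤ t → ∀ χ : Q, ∃ m : ι → ℕ, (∀ j, j ∉ S.erase i → m j = 0) ∧
      ∑ j, m j = t ∧ ∏ j, q j ^ m j = χ) (e : ℕ) (he : S.card * (δ - 1) < 2 * e) (hB : B ≤ e)
    (χ : Q) : ∃ m : ι → ℕ, (∀ j, j ∉ S → m j = 0) ∧ ∑ j, m j = e ∧ ∏ j, q j ^ m j = χ ∧
      ∃ i ∈ S, δ ≤ m i := by
  classical
  have hδ : 0 < δ := Nat.pos_of_ne_zero (NeZero.ne δ)
  let R : Finset (ι → ZMod δ) := Finset.univ.filter fun ρ =>
    (∀ j, j ∉ S → ρ j = 0) ∧ ∑ j, ρ j = (e : ZMod δ) ∧ P δ q ρ = χ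
  have hR : ∀ ρ, ρ ∈ R ↔ (∀ j, j ∉ S → ρ j = 0) ∧ ∑ j, ρ j = (e : ZMod δ) ∧ P δ q ρ = χ := by
    intro ρ
    simp [R]
  have hRne : R.Nonempty := by
    obtain ⟨i, hi⟩ := hS
    obtain ⟨m, h1, h2, h3⟩ := occ i hi e hB χ
    refine ⟨fun j => (m j : ZMod δ), (hR _).2 ⟨fun j hj => ?_, ?_, ?_⟩⟩
    · rw [h1 j fun h => hj (Finset.mem_of_mem_erase h), Nat.cast_zero]
    · rw [← Nat.cast_sum, h2]
    · rw [P_cast hq, h3]
  have hsum : ∀ i ∈ S, 2 * ∑ ρ ∈ R, (ρ i).val = R.card * (δ - 1) := by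
    intro i hi
    obtain ⟨m, h1, h2, h3⟩ := occ i hi (δ * (B + 1) - 1) (by
      have := Nat.le_mul_of_pos_left (B + 1) hδ
      omega) (q i)⁻¹
    set κ : ι → ZMod δ := fun j => ((m j + if j = i then 1 else 0 : ℕ) : ZMod δ) with hκ
    have hκi : κ i = 1 := by
      simp only [hκ, if_true]
      rw [h1 i (Finset.notMem_erase i S)]
      simp
    have hκS : ∀ j, j ∉ S → κ j = 0 := by
      intro j hj
      have hji : j ≠ i := fun h => hj (h ▸ hi)
      simp only [hκ, if_neg hji]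
      rw [h1 j fun h => hj (Finset.mem_of_mem_erase h)]
      simp
    have hκ0 : ∑ j, κ j = 0 := by
      have h4 : ∑ j, (m j + if j = i then 1 else 0) = δ * (B + 1) := by
        rw [Finset.sum_add_distrib, h2, Finset.sum_ite_eq' univ i, if_pos (Finset.mem_univ i)]
        have : 0 < δ * (B + 1) := Nat.mul_pos hδ (Nat.succ_pos B)
        omega
      simp only [hκ]
      rw [← Nat.cast_sum, h4, Nat.cast_mul, ZMod.natCast_self, zero_mul]
    have hκP : P δ q κ = 1 := by
      rw [hκ, P_cast hq]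
      have h4 : ∀ j, q j ^ (m j + if j = i then 1 else 0) = q j ^ m j * if j = i then q i else 1 := by
        intro j
        rw [pow_add]
        by_cases h : j = i
        · rw [if_pos h, if_pos h, pow_one, h]
        · rw [if_neg h, if_neg h, pow_zero]
      rw [Finset.prod_congr rfl fun j _ => h4 j, Finset.prod_mul_distrib, h3,
        Finset.prod_ite_eq' univ i, if_pos (Finset.mem_univ i), inv_mul_cancel]
    have htr : ∀ k : ZMod δ, ∑ ρ ∈ R, (ρ i + k).val = ∑ ρ ∈ R, (ρ i).val := by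
      intro k
      refine Finset.sum_equiv (Equiv.addRight (k.val • κ)) ?_ ?_
      · intro ρ
        rw [hR, hR]
        have e1 : ∀ j, j ∉ S → (ρ + k.val • κ) j = ρ j := by
          intro j hj
          rw [Pi.add_apply, Pi.smul_apply, hκS j hj, smul_zero, add_zero]
        have e2 : ∑ j, (ρ + k.val • κ) j = ∑ j, ρ j := by
          simp only [Pi.add_apply, Pi.smul_apply]
          rw [Finset.sum_add_distrib, ← Finset.smul_sum, hκ0, smul_zero, add_zero]
        have e3 : P δ q (ρ + k.val • κ) = P δ q ρ := by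
          rw [P_add hq, P_nsmul hq, hκP, one_pow, mul_one]
        change _ ↔ (∀ j, j ∉ S → (ρ + k.val • κ) j = 0) ∧ ∑ j, (ρ + k.val • κ) j = (e : ZMod δ) ∧
          P δ q (ρ + k.val • κ) = χ
        rw [e2, e3]
        constructor
        · rintro ⟨a1, a2⟩
          exact ⟨fun j hj => by rw [e1 j hj, a1 j hj], a2⟩
        · rintro ⟨a1, a2⟩
          exact ⟨fun j hj => by rw [← e1 j hj, a1 j hj], a2⟩
      · intro ρ _
        change (ρ i + k).val = ((ρ + k.val • κ) i).val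
        rw [Pi.add_apply, Pi.smul_apply, hκi, nsmul_eq_mul, mul_one, ZMod.natCast_zmod_val]
    have h5 : ∑ k : ZMod δ, ∑ ρ ∈ R, (ρ i + k).val = δ * ∑ ρ ∈ R, (ρ i).val := by
      rw [Finset.sum_congr rfl fun k _ => htr k, Finset.sum_const, Finset.card_univ, ZMod.card,
        smul_eq_mul]
    rw [Finset.sum_comm] at h5
    have h6 : 2 * ∑ ρ ∈ R, ∑ k : ZMod δ, (ρ i + k).val = R.card * (δ * (δ - 1)) := by
      rw [Finset.mul_sum, Finset.sum_congr rfl fun ρ _ => sum_val δ (ρ i), Finset.sum_const,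
        smul_eq_mul]
    rw [h5] at h6
    apply Nat.eq_of_mul_eq_mul_left hδ
    calc δ * (2 * ∑ ρ ∈ R, (ρ i).val) = 2 * (δ * ∑ ρ ∈ R, (ρ i).val) := by ring
      _ = R.card * (δ * (δ - 1)) := h6
      _ = δ * (R.card * (δ - 1)) := by ring
  obtain ⟨ρ, hρ, hlt⟩ : ∃ ρ ∈ R, ∑ i, (ρ i).val < e := by
    by_contra hcon
    push Not at hcon
    have h1 : R.card * (2 * e) ≤ ∑ ρ ∈ R, 2 * ∑ i, (ρ i).val := by
      rw [← smul_eq_mul, ← Finset.sum_const]
      exact Finset.sum_le_sum fun ρ hρ => Nat.mul_le_mul_left 2 (hcon ρ hρ)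
    have h2 : ∑ ρ ∈ R, 2 * ∑ i, (ρ i).val = S.card * (R.card * (δ - 1)) := by
      have h3 : ∀ ρ ∈ R, 2 * ∑ i, (ρ i).val = ∑ i ∈ S, 2 * (ρ i).val := by
        intro ρ hρ
        rw [Finset.mul_sum]
        symm
        apply Finset.sum_subset (Finset.subset_univ _)
        intro j _ hj
        rw [((hR ρ).1 hρ).1 j hj, ZMod.val_zero, mul_zero]
      rw [Finset.sum_congr rfl h3, Finset.sum_comm]
      have h4 : ∀ i ∈ S, ∑ ρ ∈ R, 2 * (ρ i).val = R.card * (δ - 1) := by
        intro i hi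
        rw [← Finset.mul_sum]
        exact hsum i hi
      rw [Finset.sum_congr rfl h4, Finset.sum_const, smul_eq_mul]
    rw [h2] at h1
    have h3 : S.card * (R.card * (δ - 1)) = R.card * (S.card * (δ - 1)) := by ring
    rw [h3] at h1
    have h4 := Nat.le_of_mul_le_mul_left h1 hRne.card_pos
    omega
  obtain ⟨h1, h2, h3⟩ := (hR ρ).1 hρ
  have h4 : ((∑ i, (ρ i).val : ℕ) : ZMod δ) = (e : ZMod δ) := by
    rw [Nat.cast_sum, ← h2]
    exact Finset.sum_congr rfl fun i _ => ZMod.natCast_zmod_val _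
  rw [ZMod.natCast_eq_natCast_iff] at h4
  obtain ⟨s, hs⟩ := (Nat.modEq_iff_dvd' hlt.le).1 h4
  have hs0 : 0 < s := by
    rcases Nat.eq_zero_or_pos s with h | h
    · rw [h, mul_zero] at hs
      omega
    · exact h
  obtain ⟨i0, hi0⟩ := hS
  refine ⟨fun j => (ρ j).val + if j = i0 then δ * s else 0, fun j hj => ?_, ?_, ?_, i0, hi0, ?_⟩
  · have hji : j ≠ i0 := fun h => hj (h ▸ hi0)
    simp only [if_neg hji, h1 j hj, ZMod.val_zero]
  · rw [Finset.sum_add_distrib, Finset.sum_ite_eq' univ i0, if_pos (Finset.mem_univ i0)]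
    omega
  · have h5 : ∀ j, q j ^ ((ρ j).val + if j = i0 then δ * s else 0) = q j ^ (ρ j).val := by
      intro j
      by_cases h : j = i0
      · rw [if_pos h, pow_add, pow_mul, hq, one_pow, mul_one]
      · rw [if_neg h, add_zero]
    rw [Finset.prod_congr rfl fun j _ => h5 j]
    exact h3
  · simp only [if_true]
    have := Nat.le_mul_of_pos_right δ hs0
    omega

end avg

/-! ### Relations -/

section rel

variable {A U : Type*} [CommGroup A] [CommGroup U] {ι : Type*} [Fintype ι] [DecidableEq ι]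

theorem prod_double {Q : Type*} [CommGroup Q] (q : ι → Q) (b : ι → ι → ℤ) (a : ι → ℤ)
    (S : Finset ι) (ha : ∀ i, i ∉ S → a i = 0) (hb : ∀ j ∈ S, ∏ i, q i ^ b j i = q j) :
    ∏ i, q i ^ (∑ j, a j * b j i) = ∏ j, q j ^ a j := by
  have h1 : ∀ i, q i ^ (∑ j, a j * b j i) = ∏ j, (q i ^ b j i) ^ a j := by
    intro i
    rw [← zsum]
    exact Finset.prod_congr rfl fun j _ => by rw [mul_comm, zpow_mul]
  rw [Finset.prod_congr rfl fun i _ => h1 i, Finset.prod_comm]
  refine Finset.prod_congr rfl fun j _ => ?_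
  rw [Finset.prod_zpow]
  by_cases hj : j ∈ S
  · rw [hb j hj]
  · rw [ha j hj, zpow_zero, zpow_zero]

/-- If `t ^ m` is constant for the monomials `m` of degree `e` and type `χ`, then `t ^ a = 1` for
all relations `a`. -/
theorem rel (α : ι → A) (t : ι → U) {δ : ℕ} (hδ : 0 < δ) (hα : ∀ i, α i ^ δ = 1)
    {T S : Finset ι} (hTS : T ⊆ S) {l : ι} (hl : l ∈ T) (ht : ∀ i ∈ T, t i ^ δ = t l ^ δ)
    {e : ℕ} (he : (T.card - 1) * (δ - 1) + 1 ≤ e) (χ : A)
    (occ : ∀ d, (T.card - 1) * (δ - 1) ≤ d → ∀ ψ : A, ∃ m : ι → ℕ, (∀ j, j ∉ T → m j = 0) ∧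
      ∑ j, m j = d ∧ ∏ j, α j ^ m j = ψ) {c : U}
    (hc : ∀ m : ι → ℕ, (∀ j, j ∉ S → m j = 0) → ∑ j, m j = e → ∏ j, α j ^ m j = χ →
      ∏ j, t j ^ m j = c) (a : ι → ℤ) (haS : ∀ i, i ∉ S → a i = 0) (ha0 : ∑ i, a i = 0)
    (haα : ∏ i, α i ^ a i = 1) : ∏ i, t i ^ a i = 1 := by
  obtain ⟨m₁, h1, h2, h3⟩ := occ e (by omega) χ
  choose m₂ g1 g2 g3 using fun j : ι => occ (e - 1) (by omega) (χ * (α j)⁻¹)
  have hm1 : ∏ j, t j ^ m₁ j = c := hc m₁ (fun j hj => h1 j fun h => hj (hTS h)) h2 h3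
  have hm2 : ∀ j ∈ S, (∏ i, t i ^ m₂ j i) * t j = c := by
    intro j hj
    have h4 := hc (fun i => m₂ j i + if i = j then 1 else 0) (fun i hi => by
      have hij : i ≠ j := fun h => hi (h ▸ hj)
      simp only [if_neg hij, g1 j i fun h => hi (hTS h)]) (by
      rw [Finset.sum_add_distrib, g2, Finset.sum_ite_eq' univ j, if_pos (Finset.mem_univ j)]
      omega) (by
      have h5 : ∀ i, α i ^ (m₂ j i + if i = j then 1 else 0)
          = α i ^ m₂ j i * if i = j then α j else 1 := by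
        intro i
        rw [pow_add]
        by_cases h : i = j
        · rw [if_pos h, if_pos h, pow_one, h]
        · rw [if_neg h, if_neg h, pow_zero]
      rw [Finset.prod_congr rfl fun i _ => h5 i, Finset.prod_mul_distrib, g3,
        Finset.prod_ite_eq' univ j, if_pos (Finset.mem_univ j), inv_mul_cancel_right])
    have h5 : ∀ i, t i ^ (m₂ j i + if i = j then 1 else 0)
        = t i ^ m₂ j i * if i = j then t j else 1 := by
      intro i
      rw [pow_add]
      by_cases h : i = j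
      · rw [if_pos h, if_pos h, pow_one, h]
      · rw [if_neg h, if_neg h, pow_zero]
    rw [Finset.prod_congr rfl fun i _ => h5 i, Finset.prod_mul_distrib,
      Finset.prod_ite_eq' univ j, if_pos (Finset.mem_univ j)] at h4
    exact h4
  set b : ι → ι → ℤ := fun j i => (m₁ i : ℤ) - m₂ j i with hb
  have hbα : ∀ j ∈ S, ∏ i, α i ^ b j i = α j := by
    intro j _
    have h4 : ∀ i, α i ^ b j i = α i ^ m₁ i * (α i ^ m₂ j i)⁻¹ := by
      intro i
      rw [hb]
      simp only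
      rw [zpow_sub, zpow_natCast, zpow_natCast]
    rw [Finset.prod_congr rfl fun i _ => h4 i, Finset.prod_mul_distrib, Finset.prod_inv_distrib,
      h3, g3, mul_inv, inv_inv, mul_inv_cancel_left]
  have hbt : ∀ j ∈ S, ∏ i, t i ^ b j i = t j := by
    intro j hj
    have h4 : ∀ i, t i ^ b j i = t i ^ m₁ i * (t i ^ m₂ j i)⁻¹ := by
      intro i
      rw [hb]
      simp only
      rw [zpow_sub, zpow_natCast, zpow_natCast]
    rw [Finset.prod_congr rfl fun i _ => h4 i, Finset.prod_mul_distrib, Finset.prod_inv_distrib,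
      hm1, ← hm2 j hj, mul_comm, inv_mul_cancel_left]
  set a' : ι → ℤ := fun i => ∑ j, a j * b j i with ha'
  have hα' : ∏ i, α i ^ a' i = 1 := by
    rw [ha', prod_double α b a S haS hbα, haα]
  have ht' : ∏ i, t i ^ a' i = ∏ i, t i ^ a i := by
    rw [ha', prod_double t b a S haS hbt]
  have hs' : ∑ i, a' i = 0 := by
    rw [ha']
    simp only
    rw [Finset.sum_comm]
    have h4 : ∀ j, ∑ i, a j * b j i = a j := by
      intro j
      rw [← Finset.mul_sum, hb]
      simp only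
      rw [Finset.sum_sub_distrib, ← Nat.cast_sum, ← Nat.cast_sum, h2, g2]
      have : ((e : ℤ) - ((e - 1 : ℕ) : ℤ)) = 1 := by omega
      rw [this, mul_one]
    rw [Finset.sum_congr rfl fun j _ => h4 j, ha0]
  obtain ⟨m, k1, k2, k3⟩ := red (fun i => (α i, t i)) hδ T l hl (by
      intro i hi
      rw [Prod.pow_mk, Prod.pow_mk, hα, hα, ht i hi])
    (fun i => (m₁ i : ℤ) + a' i) (by
      intro i hi
      rw [h1 i hi, ha']
      simp only [Nat.cast_zero, zero_add]
      refine Finset.sum_eq_zero fun j _ => ?_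
      rw [hb]
      simp only
      rw [h1 i hi, g1 j i hi]
      simp) e (by
      rw [Finset.sum_add_distrib, hs', add_zero, ← Nat.cast_sum, h2]) (by omega)
  have k4 : ∏ i, α i ^ m i = χ := by
    have := congrArg (MonoidHom.fst A U) k3
    rw [map_prod, map_prod] at this
    simp only [map_pow, map_zpow, MonoidHom.coe_fst] at this
    rw [this]
    simp only [zpow_add, zpow_natCast]
    rw [Finset.prod_mul_distrib, h3, hα', mul_one]
  have k5 : ∏ i, t i ^ m i = c * ∏ i, t i ^ a i := by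
    have := congrArg (MonoidHom.snd A U) k3
    rw [map_prod, map_prod] at this
    simp only [map_pow, map_zpow, MonoidHom.coe_snd] at this
    rw [this]
    simp only [zpow_add, zpow_natCast]
    rw [Finset.prod_mul_distrib, hm1, ht']
  have k6 := hc m (fun j hj => k1 j fun h => hj (hTS h)) k2 k4
  rw [k6] at k5
  exact (mul_eq_left.1 k5.symm)

end rel

end Pool.Agent.Zk57.EQ
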