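import Pool.Agent.TH144.MB.Hyper
import Pool.Agent.Zk57.EQ.Comb

/-!
# Separation of points and tangent vectors for diagonal groups of small exponent
-/

set_option autoImplicit false
set_option linter.unusedSectionVars false
set_option linter.unusedVariables false

namespace Pool.Agent.Zk57.EQ

open MvPolynomial Module Pool.Agent.TH144.MB

variable {G : Type} [Group G] [Fintype G] {n : ℕ} (S : Sit ℂ G n)

/-- the zero set of the ideal -/
def Z (v : Fin n → ℂ) : Prop := ∀ p ∈ S.I, eval v p = 0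

/-- The subspace of the coordinates in `T` meets the projective variety. -/
def Meets (T : Finset (Fin n)) : Prop := ∃ w : Fin n → ℂ, w ≠ 0 ∧ Z S w ∧ ∀ j, j ∉ T → w j = 0

variable {S}

theorem mon_ne {m : Fin n →₀ ℕ} {w : Fin n → ℂ} (h : mon m w ≠ 0) {i : Fin n} (hi : w i = 0) :
    m i = 0 := by
  by_contra hm
  apply h
  unfold mon
  exact Finset.prod_eq_zero (Finset.mem_univ i) (by rw [hi, zero_pow hm])

/-- All types occur in degrees `≥ (|T| - 1) (δ - 1)`. -/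
theorem occ {δ : ℕ} (hδ : 0 < δ) (hα : ∀ i, S.α i ^ δ = 1) {T : Finset (Fin n)}
    (hT : Meets S T) {t : ℕ} (ht : (T.card - 1) * (δ - 1) ≤ t) (χ : G →* ℂˣ) :
    ∃ m : Fin n → ℕ, (∀ j, j ∉ T → m j = 0) ∧ ∑ j, m j = t ∧ ∏ j, S.α j ^ m j = χ := by
  classical
  obtain ⟨w, hw0, hw, hwT⟩ := hT
  obtain ⟨l, hl⟩ : ∃ l, w l ≠ 0 := by
    by_contra hc
    push Not at hc
    exact hw0 (funext hc)
  have hlT : l ∈ T := by
    by_contra h
    exact hl (hwT l h)
  obtain ⟨m0, hm0, hmc, hmw⟩ := S.large hw0 hw χ (t := t + δ * Fintype.card G) (by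
    have := Nat.le_mul_of_pos_left (Fintype.card G) hδ
    omega)
  rw [Finsupp.degree_eq_sum] at hm0
  obtain ⟨m, h1, h2, h3⟩ := red S.α hδ T l hlT (fun i _ => by rw [hα, hα])
    (fun i => (m0 i : ℤ) - if i = l then ((δ * Fintype.card G : ℕ) : ℤ) else 0) (by
      intro i hi
      have hil : i ≠ l := fun h => hi (h ▸ hlT)
      simp only [if_neg hil, mon_ne hmw (hwT i hi)]
      simp) t (by
      rw [Finset.sum_sub_distrib, ← Nat.cast_sum, hm0, Finset.sum_ite_eq' Finset.univ l,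
        if_pos (Finset.mem_univ l)]
      push_cast
      ring) ht
  refine ⟨m, h1, h2, ?_⟩
  rw [h3]
  exact (prod_shift S.α hα (Fintype.card G) l m0).trans hmc

/-- A form with a large exponent. -/
theorem big {δ : ℕ} (hδ : 0 < δ) (hα : ∀ i, S.α i ^ δ = 1) {c : ℕ} (hc : 2 ≤ c)
    {T : Finset (Fin n)} (hne : T.Nonempty) (hcard : T.card ≤ c + 2)
    (hT : ∀ i ∈ T, Meets S (T.erase i)) {t : ℕ} (ht : c * (δ - 1) + 1 ≤ t) (χ : G →* ℂˣ) :
    ∃ m : Fin n → ℕ, (∀ j, j ∉ T → m j = 0) ∧ ∑ j, m j = t ∧ ∏ j, S.α j ^ m j = χ ∧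
      ∃ i ∈ T, δ ≤ m i := by
  classical
  have : NeZero δ := ⟨hδ.ne'⟩
  refine avg S.α δ hα T hne (c * (δ - 1)) ?_ t ?_ (by omega) χ
  · intro i hi s hs ψ
    refine occ hδ hα (hT i hi) (le_trans ?_ hs) ψ
    apply Nat.mul_le_mul_right
    rw [Finset.card_erase_of_mem hi]
    omega
  · have h1 : T.card * (δ - 1) ≤ (c + 2) * (δ - 1) := Nat.mul_le_mul_right _ hcard
    have h2 : (c + 2) * (δ - 1) ≤ (2 * c) * (δ - 1) := Nat.mul_le_mul_right _ (by omega)
    have h3 : (2 * c) * (δ - 1) = 2 * (c * (δ - 1)) := by ring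
    omega

/-- moving `δ` from the `i`-th to the `l`-th exponent -/
def mvx (δ : ℕ) (i l : Fin n) (m : Fin n → ℕ) : Fin n → ℕ := fun j =>
  m j - (if j = i then δ else 0) + (if j = l then δ else 0)

theorem mvx_add {δ : ℕ} {i l : Fin n} {m : Fin n → ℕ} (h : δ ≤ m i) (j : Fin n) :
    mvx δ i l m j + (if j = i then δ else 0) = m j + (if j = l then δ else 0) := by
  unfold mvx
  by_cases hj : j = i
  · subst hj
    simp only [if_true]
    omega
  · simp only [if_neg hj]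
    omega

theorem mvx_sum {δ : ℕ} {i l : Fin n} {m : Fin n → ℕ} (h : δ ≤ m i) :
    ∑ j, mvx δ i l m j = ∑ j, m j := by
  have h1 : ∑ j, (mvx δ i l m j + (if j = i then δ else 0))
      = ∑ j, (m j + (if j = l then δ else 0)) :=
    Finset.sum_congr rfl fun j _ => mvx_add h j
  rw [Finset.sum_add_distrib, Finset.sum_add_distrib, Finset.sum_ite_eq' Finset.univ i,
    Finset.sum_ite_eq' Finset.univ l, if_pos (Finset.mem_univ i), if_pos (Finset.mem_univ l)] at h1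
  omega

theorem mvx_prod {Q : Type*} [CommGroup Q] (q : Fin n → Q) {δ : ℕ} {i l : Fin n}
    {m : Fin n → ℕ} (h : δ ≤ m i) :
    (∏ j, q j ^ mvx δ i l m j) * q i ^ δ = (∏ j, q j ^ m j) * q l ^ δ := by
  have h1 : ∀ k : Fin n, ∏ j, q j ^ (if j = k then δ else 0) = q k ^ δ := by
    intro k
    rw [Finset.prod_eq_single k]
    · rw [if_pos rfl]
    · intro j _ hj
      rw [if_neg hj, pow_zero]
    · intro h; exact absurd (Finset.mem_univ k) h
  rw [← h1 i, ← h1 l, ← Finset.prod_mul_distrib, ← Finset.prod_mul_distrib]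
  refine Finset.prod_congr rfl fun j _ => ?_
  rw [← pow_add, ← pow_add, mvx_add h]

theorem mvx_prod_one {Q : Type*} [CommGroup Q] (q : Fin n → Q) {δ : ℕ} (hq : ∀ i, q i ^ δ = 1)
    {i l : Fin n} {m : Fin n → ℕ} (h : δ ≤ m i) : ∏ j, q j ^ mvx δ i l m j = ∏ j, q j ^ m j := by
  have h1 := mvx_prod q (l := l) h
  rwa [hq, hq, mul_one, mul_one] at h1

theorem mvx_supp {δ : ℕ} {i l : Fin n} {m : Fin n → ℕ} {T : Finset (Fin n)}
    (hm : ∀ j, j ∉ T → m j = 0) (hl : l ∈ T) : ∀ j, j ∉ T → mvx δ i l m j = 0 := by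
  intro j hj
  have hjl : j ≠ l := fun h => hj (h ▸ hl)
  unfold mvx
  rw [if_neg hjl, hm j hj]
  omega

/-- functions as exponents -/
noncomputable def fs (m : Fin n → ℕ) : Fin n →₀ ℕ := Finsupp.equivFunOnFinite.symm m

theorem fs_apply (m : Fin n → ℕ) (i : Fin n) : fs m i = m i := rfl

theorem fs_degree (m : Fin n → ℕ) : (fs m).degree = ∑ i, m i := by
  rw [Finsupp.degree_eq_sum]
  rfl

theorem fs_chr (m : Fin n → ℕ) : chr S.α (fs m) = ∏ i, S.α i ^ m i := rfl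

theorem fs_mon (m : Fin n → ℕ) (v : Fin n → ℂ) : mon (fs m) v = ∏ i, v i ^ m i := rfl

theorem typ_fs {m : Fin n → ℕ} {t : ℕ} {χ : G →* ℂˣ} (h1 : ∑ j, m j = t)
    (h2 : ∏ j, S.α j ^ m j = χ) : Typ S.α χ t (monomial (fs m) 1) := by
  have h := typ_monomial (α := S.α) (χ := χ) (m := fs m) (by rw [fs_chr, h2])
  rwa [fs_degree, h1] at h

theorem lam_typ {χ : G →* ℂˣ} {t : ℕ} {F : MvPolynomial (Fin n) ℂ} (hF : Typ S.α χ t F)
    (v : Fin n → ℂ) : Lam S.α χ v F = Fintype.card G * eval v F := by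
  unfold Lam
  have h1 : ∀ g : G, (((χ g)⁻¹ : ℂˣ) : ℂ) * eval (mv S.α g v) F = eval v F := by
    intro g
    rw [hF.2, ← mul_assoc, Units.inv_mul, one_mul]
  rw [Finset.sum_congr rfl fun g _ => h1 g, Finset.sum_const, Finset.card_univ, nsmul_eq_mul]

/-- The monomials of given type and degree have proportional values at points which cannot be
separated. -/
theorem prop_mon {y y' : Fin n → ℂ} (hs : ∀ i, y' i = 0 ↔ y i = 0) {χ : G →* ℂˣ} {t : ℕ}
    (hcon : ∀ F, Typ S.α χ t F → eval y' F = 0 → eval y F = 0) (τ : Fin n → ℂˣ)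
    (hτ : ∀ i, y' i = τ i * y i) {T : Finset (Fin n)} (hT : ∀ i, i ∈ T ↔ y i ≠ 0)
    {m m' : Fin n → ℕ} (h1 : ∀ j, j ∉ T → m j = 0) (h2 : ∑ j, m j = t)
    (h3 : ∏ j, S.α j ^ m j = χ) (h1' : ∀ j, j ∉ T → m' j = 0) (h2' : ∑ j, m' j = t)
    (h3' : ∏ j, S.α j ^ m' j = χ) : ∏ j, τ j ^ m j = ∏ j, τ j ^ m' j := by
  have hne : ∀ m : Fin n → ℕ, (∀ j, j ∉ T → m j = 0) → mon (fs m) y ≠ 0 := by
    intro m hm
    rw [fs_mon, Finset.prod_ne_zero_iff]
    intro j _
    by_cases hj : j ∈ T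
    · exact pow_ne_zero _ ((hT j).1 hj)
    · rw [hm j hj, pow_zero]
      exact one_ne_zero
  have hv : ∀ m : Fin n → ℕ, mon (fs m) y' = ((∏ j, τ j ^ m j : ℂˣ) : ℂ) * mon (fs m) y := by
    intro m
    rw [fs_mon, fs_mon, Units.coe_prod, ← Finset.prod_mul_distrib]
    refine Finset.prod_congr rfl fun j _ => ?_
    rw [hτ, mul_pow, Units.val_pow_eq_pow_val]
  have h4 := hcon _ (((typ_fs h2 h3).C_mul (mon (fs m') y')).sub
    ((typ_fs h2' h3').C_mul (mon (fs m) y'))) (by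
    rw [map_sub, map_mul, map_mul, eval_C, eval_C, eval_mono, eval_mono]; ring)
  rw [map_sub, map_mul, map_mul, eval_C, eval_C, eval_mono, eval_mono, hv, hv] at h4
  have h5 : (((∏ j, τ j ^ m' j : ℂˣ) : ℂ) - ((∏ j, τ j ^ m j : ℂˣ) : ℂ)) *
      (mon (fs m) y * mon (fs m') y) = 0 := by
    linear_combination h4
  rcases mul_eq_zero.1 h5 with h | h
  · exact (Units.ext (sub_eq_zero.1 h)).symm
  · exact absurd h (mul_ne_zero (hne m h1) (hne m' h1'))

theorem exists_tau {y y' : Fin n → ℂ} (hs : ∀ i, y' i = 0 ↔ y i = 0) :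
    ∃ τ : Fin n → ℂˣ, ∀ i, y' i = τ i * y i := by
  classical
  refine ⟨fun i => if h : y i = 0 then 1 else
    Units.mk0 (y' i / y i) (div_ne_zero (fun h' => h ((hs i).1 h')) h), fun i => ?_⟩
  by_cases h : y i = 0
  · simp only [h, mul_zero]
    exact (hs i).2 h
  · simp only [dif_neg h, Units.val_mk0]
    rw [div_mul_cancel₀ _ h]

/-- Case A: points with the same support. -/
theorem points_A {δ : ℕ} (hδ : 0 < δ) (hα : ∀ i, S.α i ^ δ = 1) {c : ℕ} (hc : 2 ≤ c) {ρ : ℕ}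
    (hρ : TopBound S.I ρ) {y y' : Fin n → ℂ} (hy0 : y ≠ 0) (hy : Z S y) (hy'0 : y' ≠ 0)
    (hy' : Z S y') (hne : ∀ g, mv S.α g y' ∉ Submodule.span ℂ {y})
    (hs : ∀ i, y' i = 0 ↔ y i = 0) {Y T T' : Finset (Fin n)} (hY : ∀ i, i ∈ Y ↔ y i ≠ 0)
    (hTY : T ⊆ Y) (hT : Meets S T) (hTc : T.card ≤ c + 1) (hTY' : T' ⊆ Y) (hTn' : T'.Nonempty)
    (hTc' : T'.card ≤ c + 2) (hT' : ∀ i ∈ T', Meets S (T'.erase i)) {t : ℕ}
    (ht : c * (δ - 1) + 1 ≤ t) (χ : G →* ℂˣ) :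
    ∃ F, Typ S.α χ t F ∧ eval y F ≠ 0 ∧ eval y' F = 0 := by
  classical
  by_contra hcon
  push Not at hcon
  have hcon' : ∀ F, Typ S.α χ t F → eval y' F = 0 → eval y F = 0 := by
    intro F hF h
    by_contra h'
    exact hcon F hF h' h
  obtain ⟨τ, hτ⟩ := exists_tau hs
  have hTb : (T.card - 1) * (δ - 1) + 1 ≤ t := by
    have : (T.card - 1) * (δ - 1) ≤ c * (δ - 1) := Nat.mul_le_mul_right _ (by omega)
    omega
  obtain ⟨m₀, a1, a2, a3⟩ := occ hδ hα hT (t := t) (by omega) χ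
  have hcc : ∀ m : Fin n → ℕ, (∀ j, j ∉ Y → m j = 0) → ∑ j, m j = t → ∏ j, S.α j ^ m j = χ →
      ∏ j, τ j ^ m j = ∏ j, τ j ^ m₀ j := by
    intro m h1 h2 h3
    exact prop_mon hs hcon' τ hτ hY h1 h2 h3 (fun j hj => a1 j fun h => hj (hTY h)) a2 a3
  obtain ⟨m, b1, b2, b3, i₀, hi₀, b4⟩ := big hδ hα hc hTn' hTc' hT' ht χ
  have hmY : ∀ j, j ∉ Y → m j = 0 := fun j hj => b1 j fun h => hj (hTY' h)
  have hpow : ∀ l ∈ Y, τ l ^ δ = τ i₀ ^ δ := by
    intro l hl
    have h1 := hcc m hmY b2 b3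
    have h2 := hcc (mvx δ i₀ l m) (mvx_supp hmY hl) (by rw [mvx_sum b4, b2])
      ((mvx_prod_one S.α hα (l := l) b4).trans b3)
    have h3 := mvx_prod τ (l := l) b4
    rw [h2, ← h1] at h3
    exact (mul_left_cancel h3).symm
  obtain ⟨w, hw0, hw, hwT⟩ := hT
  obtain ⟨l, hl⟩ : ∃ l, w l ≠ 0 := by
    by_contra hc
    push Not at hc
    exact hw0 (funext hc)
  have hlT : l ∈ T := by
    by_contra h
    exact hl (hwT l h)
  have hT2 : Meets S T := ⟨w, hw0, hw, hwT⟩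
  have hrel := fun a : Fin n → ℤ => rel S.α τ hδ hα hTY hlT
    (fun i hi => by rw [hpow i (hTY hi), hpow l (hTY hlT)]) hTb χ
    (fun d hd ψ => occ hδ hα hT2 hd ψ) hcc a
  obtain ⟨F, hF, hFy, hFy'⟩ := S.points hρ hy0 hy hy'0 hy' hne χ
    (t := ρ + 1 + Fintype.card G) (by omega) (by omega)
  -- the values of `F` are proportional
  have hL := lam_typ hF y
  have hL' := lam_typ hF y'
  rw [Lam_eq] at hL hL'
  have hG : (Fintype.card G : ℂ) ≠ 0 := Nat.cast_ne_zero.2 Fintype.card_ne_zero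
  obtain ⟨k₀, hk₀, hk₀'⟩ : ∃ k₀ ∈ F.support, chr S.α k₀ = χ ∧ mon k₀ y ≠ 0 := by
    by_contra hcon
    push Not at hcon
    rw [Finset.sum_eq_zero] at hL
    · exact mul_ne_zero hG hFy hL.symm
    · intro k hk
      split_ifs with h
      · rw [hcon k hk h, mul_zero, mul_zero]
      · rfl
  have hmonk : ∀ k : Fin n →₀ ℕ, mon k y' = ((∏ j, τ j ^ k j : ℂˣ) : ℂ) * mon k y := by
    intro k
    unfold mon
    rw [Units.coe_prod, ← Finset.prod_mul_distrib]
    refine Finset.prod_congr rfl fun j _ => ?_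
    rw [hτ, mul_pow, Units.val_pow_eq_pow_val]
  have hdeg : ∀ k ∈ F.support, ∑ j, k j = ρ + 1 + Fintype.card G := by
    intro k hk
    rw [← Finsupp.degree_eq_sum]
    by_contra h'
    exact (MvPolynomial.mem_support_iff.1 hk) (hF.1.coeff_eq_zero h')
  have hkey : ∀ k ∈ F.support, chr S.α k = χ → mon k y ≠ 0 →
      ∏ j, τ j ^ k j = ∏ j, τ j ^ k₀ j := by
    intro k hk hkc hky
    have h1 := hrel (fun j => (k j : ℤ) - k₀ j) (by
      intro i hi
      have hyi : y i = 0 := by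
        by_contra h
        exact hi ((hY i).2 h)
      rw [mon_ne hky hyi, mon_ne hk₀'.2 hyi, sub_self]) (by
      rw [Finset.sum_sub_distrib, ← Nat.cast_sum, ← Nat.cast_sum, hdeg k hk, hdeg k₀ hk₀,
        sub_self]) (by
      refine (prod_sub S.α k k₀).trans ?_
      change chr S.α k * (chr S.α k₀)⁻¹ = 1
      rw [hkc, hk₀'.1]
      exact mul_inv_cancel χ)
    rw [prod_sub, mul_inv_eq_one] at h1
    exact h1
  have h5 : (Fintype.card G : ℂ) * eval y' F = ((∏ j, τ j ^ k₀ j : ℂˣ) : ℂ) *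
      (Fintype.card G * eval y F) := by
    rw [← hL', ← hL, Finset.mul_sum]
    refine Finset.sum_congr rfl fun k hk => ?_
    split_ifs with h
    · rw [hmonk]
      by_cases h6 : mon k y = 0
      · rw [h6]
        ring
      · rw [hkey k hk h h6]
        ring
    · rw [mul_zero]
  rw [hFy', mul_zero] at h5
  exact mul_ne_zero (Units.ne_zero _) (mul_ne_zero hG hFy) h5.symm

/-- Case A: tangent vectors. -/
theorem tangents_A {δ : ℕ} (hδ : 0 < δ) (hα : ∀ i, S.α i ^ δ = 1) {c : ℕ} (hc : 2 ≤ c) {ρ : ℕ}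
    (hρ : TopBound S.I ρ) {y u : Fin n → ℂ} (hy0 : y ≠ 0) (hy : Z S y)
    (hne : u ∉ Submodule.span ℂ {y}) {Y T' : Finset (Fin n)} (hY : ∀ i, i ∈ Y ↔ y i ≠ 0)
    (hTY' : T' ⊆ Y) (hTn' : T'.Nonempty)
    (hTc' : T'.card ≤ c + 2) (hT' : ∀ i ∈ T', Meets S (T'.erase i)) {t : ℕ} (htρ : ρ + 1 ≤ t)
    (ht : c * (δ - 1) + 1 ≤ t) (χ : G →* ℂˣ) :
    ∃ F, Typ S.α χ t F ∧ eval y F = 0 ∧ dv F y u ≠ 0 := by
  classical
  by_contra hcon
  push Not at hcon
  have h1 : ∀ i, y i = 0 → u i = 0 := by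
    intro i hi
    obtain ⟨m, hm, hmc, hmy⟩ := S.exists_mono hρ hy0 hy (χ * (S.α i)⁻¹) (t := t - 1) (by omega)
    have h2 := (typ_monomial hmc).X_mul
    rw [hm, Nat.sub_add_cancel (by omega)] at h2
    have h3 := hcon _ h2 (by rw [map_mul, eval_X, hi, zero_mul])
    rw [dv_X_mul, hi, zero_mul, add_zero, eval_mono] at h3
    rcases mul_eq_zero.1 h3 with h | h
    · exact absurd h hmy
    · exact h
  obtain ⟨ξ, hξ⟩ : ∃ ξ : Fin n → ℂ, u = fun i => ξ i * y i := by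
    refine ⟨fun i => u i / y i, funext fun i => ?_⟩
    by_cases hi : y i = 0
    · rw [h1 i hi, hi, mul_zero]
    · rw [div_mul_cancel₀ _ hi]
  have hne' : ∀ m : Fin n → ℕ, (∀ j, j ∉ Y → m j = 0) → mon (fs m) y ≠ 0 := by
    intro m hm
    rw [fs_mon, Finset.prod_ne_zero_iff]
    intro j _
    by_cases hj : j ∈ Y
    · exact pow_ne_zero _ ((hY j).1 hj)
    · rw [hm j hj, pow_zero]
      exact one_ne_zero
  obtain ⟨m, b1, b2, b3, i₀, hi₀, b4⟩ := big hδ hα hc hTn' hTc' hT' ht χ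
  have hmY : ∀ j, j ∉ Y → m j = 0 := fun j hj => b1 j fun h => hj (hTY' h)
  have hconst : ∀ l ∈ Y, ξ l = ξ i₀ := by
    intro l hl
    have c1 := mvx_supp (δ := δ) (i := i₀) hmY hl
    have c2 : ∑ j, mvx δ i₀ l m j = t := by rw [mvx_sum b4, b2]
    have c3 : ∏ j, S.α j ^ mvx δ i₀ l m j = χ := (mvx_prod_one S.α hα (l := l) b4).trans b3
    have h6 := hcon _ (((typ_fs b2 b3).C_mul (mon (fs (mvx δ i₀ l m)) y)).sub
      ((typ_fs c2 c3).C_mul (mon (fs m) y))) (by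
      rw [map_sub, map_mul, map_mul, eval_C, eval_C, eval_mono, eval_mono]; ring)
    rw [dv_sub, dv_C_mul, dv_C_mul, hξ, dv_monomial, dv_monomial] at h6
    have h7 : (∑ i, (m i : ℂ) * ξ i - ∑ i, (mvx δ i₀ l m i : ℂ) * ξ i) *
        (mon (fs m) y * mon (fs (mvx δ i₀ l m)) y) = 0 := by
      have e1 : ∀ m : Fin n → ℕ, ∑ i, ((fs m i : ℕ) : ℂ) * ξ i = ∑ i, (m i : ℂ) * ξ i :=
        fun _ => rfl
      rw [e1, e1] at h6
      linear_combination h6
    have h8 : ∑ i, (m i : ℂ) * ξ i - ∑ i, (mvx δ i₀ l m i : ℂ) * ξ i = 0 :=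
      (mul_eq_zero.1 h7).resolve_right (mul_ne_zero (hne' m hmY) (hne' _ c1))
    have h9 : ∑ j, ((mvx δ i₀ l m j : ℂ) + (if j = i₀ then (δ : ℂ) else 0)) * ξ j
        = ∑ j, ((m j : ℂ) + (if j = l then (δ : ℂ) else 0)) * ξ j := by
      refine Finset.sum_congr rfl fun j _ => ?_
      have := congrArg (fun z : ℕ => (z : ℂ)) (mvx_add (l := l) b4 j)
      push_cast at this
      rw [this]
    simp only [add_mul, Finset.sum_add_distrib, ite_mul, zero_mul, Finset.sum_ite_eq',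
      Finset.mem_univ, if_true] at h9
    have h10 : (δ : ℂ) * (ξ l - ξ i₀) = 0 := by linear_combination (-1 : ℂ) * h8 - h9
    rcases mul_eq_zero.1 h10 with h | h
    · exact absurd h (Nat.cast_ne_zero.2 hδ.ne')
    · exact sub_eq_zero.1 h
  apply hne
  refine Submodule.mem_span_singleton.2 ⟨ξ i₀, ?_⟩
  rw [hξ]
  funext i
  by_cases hi : y i = 0
  · simp [hi]
  · simp [hconst i ((hY i).2 hi)]

/-! ### Case B -/

theorem dv_mul (p q : MvPolynomial (Fin n) ℂ) (v w : Fin n → ℂ) :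
    dv (p * q) v w = eval v p * dv q v w + eval v q * dv p v w := by
  unfold dv
  rw [Finset.mul_sum, Finset.mul_sum, ← Finset.sum_add_distrib]
  refine Finset.sum_congr rfl fun i _ => ?_
  rw [Derivation.leibniz]
  simp only [smul_eq_mul, map_add, map_mul]
  ring

theorem dv_add (p q : MvPolynomial (Fin n) ℂ) (v w : Fin n → ℂ) :
    dv (p + q) v w = dv p v w + dv q v w := by
  simp only [dv, map_add, add_mul, Finset.sum_add_distrib]

/-- the ideal of a tangent vector -/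
def Kt (y u : Fin n → ℂ) : Ideal (MvPolynomial (Fin n) ℂ) where
  carrier := {r | eval y r = 0 ∧ dv r y u = 0}
  add_mem' := by
    rintro a b ⟨h1, h2⟩ ⟨h3, h4⟩
    exact ⟨by rw [map_add, h1, h3, add_zero], by rw [dv_add, h2, h4, add_zero]⟩
  zero_mem' := ⟨map_zero _, by simp [dv]⟩
  smul_mem' := by
    rintro c a ⟨h1, h2⟩
    exact ⟨by rw [smul_eq_mul, map_mul, h1, mul_zero],
      by rw [smul_eq_mul, dv_mul, h1, h2, mul_zero, zero_mul, add_zero]⟩

/-- `I` and the variables vanishing at `y` -/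
noncomputable def J (S : Sit ℂ G n) (y : Fin n → ℂ) : Ideal (MvPolynomial (Fin n) ℂ) :=
  S.I ⊔ Ideal.span (X '' {i | y i = 0})

theorem J_eval {y y' : Fin n → ℂ} (hy' : Z S y') (hs : ∀ i, y i = 0 → y' i = 0) :
    ∀ r ∈ J S y, eval y' r = 0 := by
  have h2 : J S y ≤ RingHom.ker (eval y') := by
    refine sup_le (fun p hp => RingHom.mem_ker.2 (hy' p hp)) ?_
    rw [Ideal.span_le]
    rintro _ ⟨i, hi, rfl⟩
    refine RingHom.mem_ker.2 ?_
    rw [eval_X]
    exact hs i hi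
  exact fun r hr => RingHom.mem_ker.1 (h2 hr)

theorem J_dv {y u : Fin n → ℂ} (hy : Z S y) (hu : ∀ p ∈ S.I, dv p y u = 0)
    (hs : ∀ i, y i = 0 → u i = 0) : ∀ r ∈ J S y, dv r y u = 0 := by
  have h2 : J S y ≤ Kt y u := by
    refine sup_le (fun p hp => ⟨hy p hp, hu p hp⟩) ?_
    rw [Ideal.span_le]
    rintro _ ⟨i, hi, rfl⟩
    have hi' : y i = 0 := hi
    refine ⟨by rw [eval_X, hi'], ?_⟩
    have h3 := dv_X_mul i 1 y u
    rw [mul_one, map_one, one_mul, hi', zero_mul, add_zero, hs i hi'] at h3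
    exact h3
  exact fun r hr => (h2 hr).2

theorem J_act (hst : ∀ g, ∀ p ∈ S.I, act S.α g p ∈ S.I) {y : Fin n → ℂ} (g : G) :
    ∀ r ∈ J S y, act S.α g r ∈ J S y := by
  have h2 : J S y ≤ (J S y).comap (act S.α g) := by
    refine sup_le (fun p hp => Ideal.mem_sup_left (hst g p hp)) ?_
    rw [Ideal.span_le]
    rintro _ ⟨i, hi, rfl⟩
    have h3 : act S.α g (X i) = C (S.α i g : ℂ) * X i := by simp [act]
    change act S.α g (X i) ∈ J S y
    rw [h3]
    exact Ideal.mul_mem_left _ _ (Ideal.mem_sup_right (Ideal.subset_span ⟨i, hi, rfl⟩))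
  exact fun r hr => h2 hr

theorem J_hom {y : Fin n → ℂ} : Hom (J S y) := by
  classical
  have h2 : ∀ s : Finset (Fin n), Hom (S.I ⊔ Ideal.span (X '' (s : Set (Fin n)))) := by
    intro s
    induction s using Finset.induction_on with
    | empty =>
      rw [Finset.coe_empty, Set.image_empty, Ideal.span_empty, sup_bot_eq]
      exact S.hom
    | insert i s _ ih =>
      have h3 := hom_sup ih (isHomogeneous_X ℂ i)
      rwa [sup_assoc, ← Ideal.span_union, ← Set.image_singleton, ← Set.image_union,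
        Set.union_singleton, ← Finset.coe_insert] at h3
  have h4 := h2 (Finset.univ.filter fun i => y i = 0)
  rwa [Finset.coe_filter, show {i | i ∈ Finset.univ ∧ y i = 0} = {i | y i = 0} by simp] at h4

/-- The descent of the degree. -/
theorem transfer (hst : ∀ g, ∀ p ∈ S.I, act S.α g p ∈ S.I) {ρ : ℕ} (hρ : TopBound S.I ρ)
    {y : Fin n → ℂ} {i₀ : Fin n} (hi₀ : y i₀ ≠ 0)
    (hB : ∀ v : Fin n → ℂ, Z S v → (∀ j, y j = 0 → v j = 0) → v i₀ = 0 → v = 0)
    {χ : G →* ℂˣ} {t : ℕ} (ht : ρ ≤ t) {F : MvPolynomial (Fin n) ℂ}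
    (hF : Typ S.α (χ * S.α i₀) (t + 1) F) :
    ∃ q, Typ S.α χ t q ∧ F - X i₀ * q ∈ J S y := by
  classical
  let L : Fin n → Fin n → ℂ := fun i => if y i = 0 then Pi.single i 1 else Pi.single i₀ 1
  have hlin : ∀ i : Fin n, lin (Pi.single i 1) = (X i : MvPolynomial (Fin n) ℂ) := by
    intro i
    unfold lin
    rw [Finset.sum_eq_single i]
    · simp
    · intro j _ hj
      rw [Pi.single_eq_of_ne hj, map_zero, zero_mul]
    · intro h; exact absurd (Finset.mem_univ i) h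
  have hv : ∀ v : Fin n → ℂ, (∀ p ∈ S.I, eval v p = 0) → (∀ i, eval v (lin (L i)) = 0) →
      v = 0 := by
    intro v hv1 hv2
    refine hB v hv1 (fun i hi => ?_) ?_
    · have := hv2 i
      simp only [L, if_pos hi, hlin, eval_X] at this
      exact this
    · have := hv2 i₀
      simp only [L, if_neg hi₀, hlin, eval_X] at this
      exact this
  have hF1 : F.IsHomogeneous (1 + t) := by
    rw [add_comm]
    exact hF.1
  have h1 := hρ n L hv (1 + t) (by omega) _ hF1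
  have h3 : S.I ⊔ Ideal.span (Set.range fun i => lin (L i)) ≤ J S y ⊔ Ideal.span {X i₀} := by
    refine sup_le (le_sup_left.trans le_sup_left) ?_
    rw [Ideal.span_le]
    rintro _ ⟨i, rfl⟩
    by_cases hi : y i = 0
    · simp only [L, if_pos hi, hlin]
      exact Ideal.mem_sup_left (Ideal.mem_sup_right (Ideal.subset_span ⟨i, hi, rfl⟩))
    · simp only [L, if_neg hi, hlin]
      exact Ideal.mem_sup_right (Ideal.mem_span_singleton_self _)
  obtain ⟨q₀, hq₀, hmq⟩ := mem_sup_hom J_hom (isHomogeneous_X ℂ i₀) hF1 (h3 h1)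
  obtain ⟨q, hq, hqL⟩ := exists_typ S.α χ hq₀
  refine ⟨q, hq, ?_⟩
  have hG : (Fintype.card G : ℂ) ≠ 0 := Nat.cast_ne_zero.2 Fintype.card_ne_zero
  have h4 : ∑ g : G, C ((((χ * S.α i₀) g)⁻¹ : ℂˣ) : ℂ) * act S.α g (F - X i₀ * q₀) ∈ J S y :=
    Ideal.sum_mem _ fun g _ => Ideal.mul_mem_left _ _ (J_act hst g _ hmq)
  have h5 : ∑ g : G, C ((((χ * S.α i₀) g)⁻¹ : ℂˣ) : ℂ) * act S.α g (F - X i₀ * q₀)
      = C (Fintype.card G : ℂ) * (F - X i₀ * q) := by
    apply MvPolynomial.funext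
    intro v
    rw [map_sum, map_mul, eval_C, map_sub, map_mul, eval_X, mul_sub, ← mul_assoc,
      mul_comm (Fintype.card G : ℂ) (v i₀), mul_assoc, ← hqL v, ← lam_typ hF v]
    unfold Lam
    rw [Finset.mul_sum, ← Finset.sum_sub_distrib]
    refine Finset.sum_congr rfl fun g _ => ?_
    rw [map_mul, eval_C, eval_act, map_sub, map_mul, eval_X, MonoidHom.mul_apply, mul_inv,
      Units.val_mul]
    have h7 : mv S.α g v i₀ = (S.α i₀ g : ℂ) * v i₀ := rfl
    rw [h7]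
    have h6 : (((S.α i₀ g)⁻¹ : ℂˣ) : ℂ) * (S.α i₀ g : ℂ) = 1 := Units.inv_mul _
    linear_combination (-((((χ g)⁻¹ : ℂˣ) : ℂ) * (v i₀ * eval (mv S.α g v) q₀))) * h6
  rw [h5] at h4
  have h6 := Ideal.mul_mem_left _ (C ((Fintype.card G : ℂ)⁻¹)) h4
  rwa [← mul_assoc, ← C_mul, inv_mul_cancel₀ hG, C_1, one_mul] at h6

/-- Case B: points with the same support. -/
theorem points_B (hst : ∀ g, ∀ p ∈ S.I, act S.α g p ∈ S.I) {ρ : ℕ} (hρ : TopBound S.I ρ)
    {y y' : Fin n → ℂ} (hy0 : y ≠ 0) (hy : Z S y) (hy'0 : y' ≠ 0)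
    (hy' : Z S y') (hne : ∀ g, mv S.α g y' ∉ Submodule.span ℂ {y})
    (hs : ∀ i, y' i = 0 ↔ y i = 0) {i₀ : Fin n} (hi₀ : y i₀ ≠ 0)
    (hB : ∀ v : Fin n → ℂ, Z S v → (∀ j, y j = 0 → v j = 0) → v i₀ = 0 → v = 0) (k : ℕ) :
    ∀ (t : ℕ), ρ + 1 ≤ t → Fintype.card G ≤ t + k → ∀ χ : G →* ℂˣ,
      ∃ F, Typ S.α χ t F ∧ eval y F ≠ 0 ∧ eval y' F = 0 := by
  induction k with
  | zero =>
    intro t ht hk χ
    exact S.points hρ hy0 hy hy'0 hy' hne χ ht hk
  | succ k ih =>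
    intro t ht hk χ
    obtain ⟨F, hF, h1, h2⟩ := ih (t + 1) (by omega) (by omega) (χ * S.α i₀)
    obtain ⟨q, hq, hFq⟩ := transfer hst hρ hi₀ hB (by omega) hF
    have h3 := J_eval hy (fun i h => h) _ hFq
    have h4 := J_eval hy' (fun i h => (hs i).2 h) _ hFq
    rw [map_sub, map_mul, eval_X, sub_eq_zero] at h3 h4
    refine ⟨q, hq, ?_, ?_⟩
    · intro h
      rw [h, mul_zero] at h3
      exact h1 h3
    · rw [h2] at h4
      rcases mul_eq_zero.1 h4.symm with h | h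
      · exact absurd ((hs i₀).1 h) hi₀
      · exact h

/-- Case B: tangent vectors. -/
theorem tangents_B (hst : ∀ g, ∀ p ∈ S.I, act S.α g p ∈ S.I) {ρ : ℕ} (hρ : TopBound S.I ρ)
    {y u : Fin n → ℂ} (hy0 : y ≠ 0) (hy : Z S y) (hu : ∀ p ∈ S.I, dv p y u = 0)
    (hne : u ∉ Submodule.span ℂ {y}) (hs : ∀ i, y i = 0 → u i = 0) {i₀ : Fin n}
    (hi₀ : y i₀ ≠ 0)
    (hB : ∀ v : Fin n → ℂ, Z S v → (∀ j, y j = 0 → v j = 0) → v i₀ = 0 → v = 0) (k : ℕ) :
    ∀ (t : ℕ), ρ + 1 ≤ t → Fintype.card G ≤ t + k → ∀ χ : G →* ℂˣ,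
      ∃ F, Typ S.α χ t F ∧ eval y F = 0 ∧ dv F y u ≠ 0 := by
  induction k with
  | zero =>
    intro t ht hk χ
    exact S.tangents hst hρ hy0 hy hu hne χ ht hk
  | succ k ih =>
    intro t ht hk χ
    obtain ⟨F, hF, h1, h2⟩ := ih (t + 1) (by omega) (by omega) (χ * S.α i₀)
    obtain ⟨q, hq, hFq⟩ := transfer hst hρ hi₀ hB (by omega) hF
    have h3 := J_eval hy (fun i h => h) _ hFq
    have h4 := J_dv hy hu hs _ hFq
    rw [map_sub, map_mul, eval_X, h1, zero_sub, neg_eq_zero] at h3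
    have h5 : eval y q = 0 := (mul_eq_zero.1 h3).resolve_left hi₀
    rw [dv_sub, dv_X_mul, h5, zero_mul, zero_add, sub_eq_zero] at h4
    refine ⟨q, hq, h5, ?_⟩
    intro h
    rw [h, mul_zero] at h4
    exact h2 h4

/-- Separation of points. -/
theorem points_exp (hst : ∀ g, ∀ p ∈ S.I, act S.α g p ∈ S.I) {δ : ℕ} (hδ : 0 < δ)
    (hα : ∀ i, S.α i ^ δ = 1) {c : ℕ} (hc : 2 ≤ c)
    (hmeet : ∀ T : Finset (Fin n), T.card = c + 1 → Meets S T) {ρ : ℕ}
    (hρ : TopBound S.I ρ) {y y' : Fin n → ℂ} (hy0 : y ≠ 0) (hy : Z S y) (hy'0 : y' ≠ 0)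
    (hy' : Z S y') (hne : ∀ g, mv S.α g y' ∉ Submodule.span ℂ {y}) (χ : G →* ℂˣ) {t : ℕ}
    (htρ : ρ + 1 ≤ t) (ht : c * (δ - 1) + 1 ≤ t) :
    ∃ F, Typ S.α χ t F ∧ eval y F ≠ 0 ∧ eval y' F = 0 := by
  classical
  by_cases h1 : ∃ i, y i ≠ 0 ∧ y' i = 0
  · obtain ⟨i, hi, hi'⟩ := h1
    obtain ⟨m, hm, hmc, hmy⟩ := S.exists_mono hρ hy0 hy (χ * (S.α i)⁻¹) (t := t - 1) (by omega)
    have h2 := (typ_monomial hmc).X_mul
    rw [hm, Nat.sub_add_cancel (by omega)] at h2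
    refine ⟨_, h2, ?_, ?_⟩
    · rw [map_mul, eval_X, eval_mono]
      exact mul_ne_zero hi hmy
    · rw [map_mul, eval_X, hi', zero_mul]
  · by_cases h2 : ∃ i, y i = 0 ∧ y' i ≠ 0
    · obtain ⟨i, hi, hi'⟩ := h2
      obtain ⟨m, hm, hmc, hmy⟩ := S.exists_mono hρ hy'0 hy' (χ * (S.α i)⁻¹) (t := t - 1) (by omega)
      have h2 := (typ_monomial hmc).X_mul
      rw [hm, Nat.sub_add_cancel (by omega)] at h2
      obtain ⟨m', hm', hmc', hmy'⟩ := S.exists_mono hρ hy0 hy χ (t := t) (by omega)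
      have h3 := typ_monomial hmc'
      rw [hm'] at h3
      have h4 : eval y' (X i * monomial m (1 : ℂ)) ≠ 0 := by
        rw [map_mul, eval_X, eval_mono]
        exact mul_ne_zero hi' hmy
      refine ⟨monomial m' 1 - C (eval y' (monomial m' (1 : ℂ))
        / eval y' (X i * monomial m (1 : ℂ))) * (X i * monomial m 1), h3.sub (h2.C_mul _), ?_, ?_⟩
      · rw [map_sub, map_mul, map_mul (eval y) (X i), eval_X, hi, zero_mul, mul_zero, sub_zero,
          eval_mono]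
        exact hmy'
      · rw [map_sub, map_mul (eval y') (C _), eval_C, div_mul_cancel₀ _ h4, sub_self]
    · have hs : ∀ i, y' i = 0 ↔ y i = 0 := by
        push Not at h1 h2
        intro i
        constructor
        · intro h
          by_contra h3
          exact h1 i h3 h
        · intro h
          exact h2 i h
      set Y : Finset (Fin n) := Finset.univ.filter fun i => y i ≠ 0 with hYdef
      have hY : ∀ i, i ∈ Y ↔ y i ≠ 0 := by
        intro i
        simp [hYdef]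
      by_cases hA : ∀ i ∈ Y, Meets S (Y.erase i)
      · have hYm : Meets S Y := ⟨y, hy0, hy, fun j hj => by
          by_contra h
          exact hj ((hY j).2 h)⟩
        have hYn : Y.Nonempty := by
          obtain ⟨l, hl⟩ : ∃ l, y l ≠ 0 := by
            by_contra hc
            push Not at hc
            exact hy0 (funext hc)
          exact ⟨l, (hY l).2 hl⟩
        rcases Nat.lt_or_ge (c + 1) Y.card with hYc | hYc
        · obtain ⟨T, hT, hTc⟩ := Finset.exists_subset_card_eq (show c + 1 ≤ Y.card by omega)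
          obtain ⟨T', hT', hTc'⟩ := Finset.exists_subset_card_eq (show c + 2 ≤ Y.card by omega)
          exact points_A hδ hα hc hρ hy0 hy hy'0 hy' hne hs hY hT (hmeet T hTc) hTc.le hT'
            (Finset.card_pos.1 (by omega)) hTc'.le (fun i hi => hmeet _ (by
              rw [Finset.card_erase_of_mem hi, hTc']
              rfl)) ht χ
        · exact points_A hδ hα hc hρ hy0 hy hy'0 hy' hne hs hY subset_rfl hYm hYc subset_rfl hYn
            (by omega) hA ht χ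
      · push Not at hA
        obtain ⟨i₀, hi₀, hA⟩ := hA
        refine points_B hst hρ hy0 hy hy'0 hy' hne hs ((hY i₀).1 hi₀) ?_ (Fintype.card G) t htρ
          (by omega) χ
        intro v hv hvy hv0
        by_contra hvn
        refine hA ⟨v, hvn, hv, fun j hj => ?_⟩
        by_cases hj' : j = i₀
        · rw [hj', hv0]
        · refine hvy j ?_
          by_contra h
          exact hj (Finset.mem_erase.2 ⟨hj', (hY j).2 h⟩)

/-- Separation of tangent vectors. -/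
theorem tangents_exp (hst : ∀ g, ∀ p ∈ S.I, act S.α g p ∈ S.I) {δ : ℕ} (hδ : 0 < δ)
    (hα : ∀ i, S.α i ^ δ = 1) {c : ℕ} (hc : 2 ≤ c)
    (hmeet : ∀ T : Finset (Fin n), T.card = c + 1 → Meets S T) {ρ : ℕ}
    (hρ : TopBound S.I ρ) {y u : Fin n → ℂ} (hy0 : y ≠ 0) (hy : Z S y)
    (hu : ∀ p ∈ S.I, dv p y u = 0) (hne : u ∉ Submodule.span ℂ {y}) (χ : G →* ℂˣ) {t : ℕ}
    (htρ : ρ + 1 ≤ t) (ht : c * (δ - 1) + 1 ≤ t) :
    ∃ F, Typ S.α χ t F ∧ eval y F = 0 ∧ dv F y u ≠ 0 := by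
  classical
  by_contra hcon
  have hcon' := hcon
  push Not at hcon'
  have hs : ∀ i, y i = 0 → u i = 0 := by
    intro i hi
    obtain ⟨m, hm, hmc, hmy⟩ := S.exists_mono hρ hy0 hy (χ * (S.α i)⁻¹) (t := t - 1) (by omega)
    have h2 := (typ_monomial hmc).X_mul
    rw [hm, Nat.sub_add_cancel (by omega)] at h2
    have h3 := hcon' _ h2 (by rw [map_mul, eval_X, hi, zero_mul])
    rw [dv_X_mul, hi, zero_mul, add_zero, eval_mono] at h3
    rcases mul_eq_zero.1 h3 with h | h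
    · exact absurd h hmy
    · exact h
  apply hcon
  set Y : Finset (Fin n) := Finset.univ.filter fun i => y i ≠ 0 with hYdef
  have hY : ∀ i, i ∈ Y ↔ y i ≠ 0 := by
    intro i
    simp [hYdef]
  by_cases hA : ∀ i ∈ Y, Meets S (Y.erase i)
  · have hYn : Y.Nonempty := by
      obtain ⟨l, hl⟩ : ∃ l, y l ≠ 0 := by
        by_contra hc
        push Not at hc
        exact hy0 (funext hc)
      exact ⟨l, (hY l).2 hl⟩
    rcases Nat.lt_or_ge (c + 1) Y.card with hYc | hYc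
    · obtain ⟨T', hT', hTc'⟩ := Finset.exists_subset_card_eq (show c + 2 ≤ Y.card by omega)
      exact tangents_A hδ hα hc hρ hy0 hy hne hY hT' (Finset.card_pos.1 (by omega)) hTc'.le
        (fun i hi => hmeet _ (by
          rw [Finset.card_erase_of_mem hi, hTc']
          rfl)) htρ ht χ
    · exact tangents_A hδ hα hc hρ hy0 hy hne hY subset_rfl hYn (by omega) hA htρ ht χ
  · push Not at hA
    obtain ⟨i₀, hi₀, hA⟩ := hA
    refine tangents_B hst hρ hy0 hy hu hne hs ((hY i₀).1 hi₀) ?_ (Fintype.card G) t htρ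
      (by omega) χ
    intro v hv hvy hv0
    by_contra hvn
    refine hA ⟨v, hvn, hv, fun j hj => ?_⟩
    by_cases hj' : j = i₀
    · rw [hj', hv0]
    · refine hvy j ?_
      by_contra h
      exact hj (Finset.mem_erase.2 ⟨hj', (hY j).2 h⟩)

end Pool.Agent.Zk57.EQ
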