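import Pool.Agent.Zk57.EQ.Geo

/-!
# Coordinate subspaces meet the variety
-/

set_option autoImplicit false

namespace Pool.Agent.Zk57.EQ

open MvPolynomial Module Pool.Agent.TH144.MB

variable {n : ℕ}

/-- the coordinates outside of `T` -/
noncomputable def cx (T : Finset (Fin n)) : List (Fin n → ℂ) :=
  (Finset.univ \ T).toList.map fun j => Pi.single j 1

theorem cx_length (T : Finset (Fin n)) : (cx T).length + T.card = n := by
  have h1 := Finset.card_sdiff_add_card_eq_card (Finset.subset_univ T)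
  rw [Finset.card_univ, Fintype.card_fin] at h1
  rw [cx, List.length_map, Finset.length_toList]
  exact h1

theorem lin_single' (i : Fin n) : lin (Pi.single i 1) = (X i : MvPolynomial (Fin n) ℂ) := by
  unfold lin
  rw [Finset.sum_eq_single i]
  · simp
  · intro j _ hj
    rw [Pi.single_eq_of_ne hj, map_zero, zero_mul]
  · intro h; exact absurd (Finset.mem_univ i) h

theorem cx_eval {T : Finset (Fin n)} {v : Fin n → ℂ} (h : ∀ b ∈ cx T, eval v (lin b) = 0) :
    ∀ j, j ∉ T → v j = 0 := by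
  intro j hj
  have h1 := h (Pi.single j 1) (List.mem_map.2 ⟨j, by simp [hj], rfl⟩)
  rwa [lin_single', eval_X] at h1

theorem not_nz {I : Ideal (MvPolynomial (Fin n) ℂ)} (hI : (1 : MvPolynomial (Fin n) ℂ) ∉ I) :
    ¬ NZ (lin (0 : Fin n → ℂ)) I := by
  intro h
  refine hI (h 1 ?_)
  rw [lin_zero, zero_mul]
  exact I.zero_mem

theorem meets_cm {I : Ideal (MvPolynomial (Fin n) ℂ)} (hI : Hom I)
    (h1I : (1 : MvPolynomial (Fin n) ℂ) ∉ I) {τ : ℕ} (as : List (Fin n → ℂ))
    (hreg : Reg I (as.map lin))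
    (hτ : ∀ t, τ < t → ∀ p : MvPolynomial (Fin n) ℂ, p.IsHomogeneous t → p ∈ ext I (as.map lin))
    (T : Finset (Fin n)) (hT : T.card + as.length = n + 1) :
    ∃ w : Fin n → ℂ, w ≠ 0 ∧ (∀ p ∈ I, eval w p = 0) ∧ ∀ j, j ∉ T → w j = 0 := by
  by_contra hcon
  push Not at hcon
  obtain ⟨h1, -⟩ := exchange as.length as (0 :: cx T) rfl (by
    have := cx_length T
    rw [List.length_cons]
    omega) I hI hreg hτ (by
    intro v hv hb
    by_contra hv0
    obtain ⟨j, hj, hj'⟩ := hcon v hv0 hv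
    exact hj' (cx_eval (fun b hb' => hb b (List.mem_cons_of_mem _ hb')) j hj))
  exact not_nz h1I h1.1

theorem meets_ci {c : ℕ} (f : Fin c → MvPolynomial (Fin n) ℂ) (d : Fin c → ℕ)
    (hf : ∀ j, (f j).IsHomogeneous (d j) ∧ 0 < d j) (T : Finset (Fin n))
    (hT : T.card = c + 1) :
    ∃ w : Fin n → ℂ, w ≠ 0 ∧ (∀ p ∈ Ideal.span (Set.range f), eval w p = 0) ∧
      ∀ j, j ∉ T → w j = 0 := by
  by_contra hcon
  push Not at hcon
  obtain ⟨h1, -⟩ := square (K := ℂ) (σ := Fin n) (List.ofFn fun j => (f j, d j)) (0 :: cx T) (by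
    intro x hx
    rw [List.mem_ofFn] at hx
    obtain ⟨j, rfl⟩ := hx
    exact hf j) (by
    have := cx_length T
    rw [List.length_cons, List.length_ofFn, Fintype.card_fin]
    omega) (by
    intro v hb hv
    by_contra hv0
    obtain ⟨j, hj, hj'⟩ := hcon v hv0 (by
      intro p hp
      have h2 : Ideal.span (Set.range f) ≤ RingHom.ker (eval v) := by
        rw [Ideal.span_le]
        rintro _ ⟨j, rfl⟩
        exact RingHom.mem_ker.2 (hv (f j, d j) (by
          rw [List.mem_ofFn]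
          exact ⟨j, rfl⟩))
      exact RingHom.mem_ker.1 (h2 hp))
    exact hj' (cx_eval (fun b hb' => hb b (List.mem_cons_of_mem _ hb')) j hj))
  refine not_nz (I := ⊥) ?_ h1.1
  rw [Ideal.mem_bot]
  exact one_ne_zero

end Pool.Agent.Zk57.EQ
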